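import Mathlib

/-!
# Kronecker's theorem on simultaneous approximation

Proof by mean values of `∏ (1 + g_i^t / w_i)^M` (Bohr); copied from `Pool.Agent.H612.LR.T_KRO`.
-/

set_option autoImplicit false

namespace Pool.Agent.Q81.NH

open Polynomial Filter Topology

namespace KRO

lemma geom_bound (μ : ℂ) (h : ‖μ‖ = 1) (h1 : μ ≠ 1) (N : ℕ) :
    ‖∑ t ∈ Finset.range N, μ ^ t‖ ≤ 2 / ‖μ - 1‖ := by
  rw [geom_sum_eq h1, norm_div]
  gcongr
  calc ‖μ ^ N - 1‖ ≤ ‖μ ^ N‖ + ‖(1:ℂ)‖ := norm_sub_le _ _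
    _ = 2 := by rw [norm_pow, h]; norm_num

lemma parseval {K : Type*} [Fintype K] (c : K → ℝ) (u χ : K → ℂ) (R : ℝ)
    (hc : ∀ k, 0 ≤ c k) (hu : ∀ k, ‖u k‖ = 1) (hχ : ∀ k, ‖χ k‖ = 1)
    (huχ : ∀ k k', χ k = χ k' → u k = u k')
    (hR : ∀ t : ℕ, ‖∑ k, (c k : ℂ) * u k * χ k ^ t‖ ≤ R) : ∑ k, c k ^ 2 ≤ R ^ 2 := by
  classical
  have hR0 : 0 ≤ R := (norm_nonneg _).trans (hR 0)
  set C : ℝ := ∑ k, ∑ k', c k * c k' * (2 / ‖χ k * starRingEnd ℂ (χ k') - 1‖) with hC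
  have hconj : ∀ z : ℂ, ‖z‖ = 1 → z * starRingEnd ℂ z = 1 := by
    intro z hz
    rw [Complex.mul_conj, Complex.normSq_eq_norm_sq, hz]
    norm_num
  have key : ∀ N : ℕ, ∑ t ∈ Finset.range N, ‖∑ k, (c k : ℂ) * u k * χ k ^ t‖ ^ 2 =
      ∑ k, ∑ k', c k * c k' * ((u k * starRingEnd ℂ (u k')) *
        ∑ t ∈ Finset.range N, (χ k * starRingEnd ℂ (χ k')) ^ t).re := by
    intro N
    have h1 : ∀ t : ℕ, ‖∑ k, (c k : ℂ) * u k * χ k ^ t‖ ^ 2 =
        (∑ k, ∑ k', ((c k : ℂ) * u k * χ k ^ t) *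
          starRingEnd ℂ ((c k' : ℂ) * u k' * χ k' ^ t)).re := by
      intro t
      rw [← Complex.normSq_eq_norm_sq]
      have h2 := Complex.mul_conj (∑ k, (c k : ℂ) * u k * χ k ^ t)
      rw [map_sum, Finset.sum_mul_sum] at h2
      rw [h2, Complex.ofReal_re]
    simp only [h1]
    rw [← Complex.re_sum, Finset.sum_comm]
    rw [Complex.re_sum]
    refine Finset.sum_congr rfl fun k _ => ?_
    rw [Finset.sum_comm, Complex.re_sum]
    refine Finset.sum_congr rfl fun k' _ => ?_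
    rw [← Complex.re_ofReal_mul, Finset.mul_sum, Finset.mul_sum]
    congr 1
    refine Finset.sum_congr rfl fun t _ => ?_
    simp only [map_mul, map_pow, Complex.conj_ofReal]
    push_cast
    ring
  have lower : ∀ N : ℕ, (N : ℝ) * ∑ k, c k ^ 2 - C ≤
      ∑ t ∈ Finset.range N, ‖∑ k, (c k : ℂ) * u k * χ k ^ t‖ ^ 2 := by
    intro N
    rw [key N, hC, Finset.mul_sum, ← Finset.sum_sub_distrib]
    refine Finset.sum_le_sum fun k _ => ?_
    have h3 : (N : ℝ) * c k ^ 2 = ∑ k', if k = k' then (N : ℝ) * c k ^ 2 else 0 := by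
      rw [Finset.sum_ite_eq]
      simp
    rw [h3, ← Finset.sum_sub_distrib]
    refine Finset.sum_le_sum fun k' _ => ?_
    by_cases hkk : χ k = χ k'
    · have e1 : u k * starRingEnd ℂ (u k') = 1 := by rw [huχ k k' hkk]; exact hconj _ (hu _)
      have e2 : χ k * starRingEnd ℂ (χ k') = 1 := by rw [hkk]; exact hconj _ (hχ _)
      rw [e1, e2]
      have hcc : 0 ≤ c k * c k' := mul_nonneg (hc _) (hc _)
      simp only [one_pow, Finset.sum_const, Finset.card_range, nsmul_eq_mul, mul_one, one_mul,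
        sub_self, norm_zero, div_zero, mul_zero, sub_zero, Complex.natCast_re]
      split_ifs with hk
      · subst hk
        nlinarith
      · positivity
    · have hne : k ≠ k' := fun h => hkk (by rw [h])
      rw [if_neg hne, zero_sub]
      have hcc : 0 ≤ c k * c k' := mul_nonneg (hc _) (hc _)
      have hμ1 : ‖χ k * starRingEnd ℂ (χ k')‖ = 1 := by
        rw [norm_mul, RCLike.norm_conj, hχ, hχ]; norm_num
      have hμ2 : χ k * starRingEnd ℂ (χ k') ≠ 1 := by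
        intro h
        apply hkk
        have h4 := hconj (χ k') (hχ k')
        calc χ k = χ k * (χ k' * starRingEnd ℂ (χ k')) := by rw [h4, mul_one]
          _ = (χ k * starRingEnd ℂ (χ k')) * χ k' := by ring
          _ = χ k' := by rw [h, one_mul]
      have hb := geom_bound _ hμ1 hμ2 N
      have h5 : -(2 / ‖χ k * starRingEnd ℂ (χ k') - 1‖) ≤ ((u k * starRingEnd ℂ (u k')) *
        ∑ t ∈ Finset.range N, (χ k * starRingEnd ℂ (χ k')) ^ t).re := by
        have h6 := Complex.abs_re_le_norm ((u k * starRingEnd ℂ (u k')) *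
          ∑ t ∈ Finset.range N, (χ k * starRingEnd ℂ (χ k')) ^ t)
        rw [norm_mul, norm_mul, RCLike.norm_conj, hu, hu, one_mul, one_mul] at h6
        have h7 := (abs_le.mp (h6.trans hb)).1
        exact h7
      have h8 := mul_le_mul_of_nonneg_left h5 hcc
      linarith
  have upper : ∀ N : ℕ, ∑ t ∈ Finset.range N, ‖∑ k, (c k : ℂ) * u k * χ k ^ t‖ ^ 2 ≤
      (N : ℝ) * R ^ 2 := by
    intro N
    calc ∑ t ∈ Finset.range N, ‖∑ k, (c k : ℂ) * u k * χ k ^ t‖ ^ 2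
        ≤ ∑ t ∈ Finset.range N, R ^ 2 := by
          refine Finset.sum_le_sum fun t _ => ?_
          exact pow_le_pow_left₀ (norm_nonneg _) (hR t) 2
      _ = (N : ℝ) * R ^ 2 := by simp
  by_contra hcon
  push Not at hcon
  obtain ⟨N, hN⟩ := exists_nat_gt (C / (∑ k, c k ^ 2 - R ^ 2))
  have hpos : 0 < ∑ k, c k ^ 2 - R ^ 2 := by linarith
  rw [div_lt_iff₀ hpos] at hN
  have := (lower N).trans (upper N)
  nlinarith

lemma norm_one_add {z : ℂ} {ε : ℝ} (hz : ‖z‖ = 1) (hε : 0 < ε) (h : ε ≤ ‖z - 1‖) :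
    ‖1 + z‖ ≤ 2 * (1 - ε ^ 2 / 8) ∧ ε ≤ 2 := by
  have h2 : ‖z - 1‖ ≤ 2 := by
    calc ‖z - 1‖ ≤ ‖z‖ + ‖(1:ℂ)‖ := norm_sub_le _ _
      _ = 2 := by rw [hz]; norm_num
  have hε2 : ε ≤ 2 := h.trans h2
  refine ⟨?_, hε2⟩
  have h3 := parallelogram_law_with_norm ℂ (1:ℂ) z
  rw [hz, norm_one, norm_sub_rev] at h3
  have h4 : ε ^ 2 ≤ ‖z - 1‖ ^ 2 := pow_le_pow_left₀ hε.le h 2
  have h5 : ‖1 + z‖ ^ 2 ≤ (2 * (1 - ε ^ 2 / 8)) ^ 2 := by nlinarith [sq_nonneg (ε ^ 2)]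
  have h6 : 0 ≤ 2 * (1 - ε ^ 2 / 8) := by nlinarith
  exact (pow_le_pow_iff_left₀ (norm_nonneg _) h6 (by norm_num)).mp h5

theorem core {ι : Type*} [Fintype ι] (G W : ι → ℂ) (hG : ∀ i, ‖G i‖ = 1) (hW : ∀ i, ‖W i‖ = 1)
    (hrel : ∀ e : ι → ℤ, ∏ i, G i ^ e i = 1 → ∏ i, W i ^ e i = 1) (ε : ℝ) (hε : 0 < ε) :
    ∃ t : ℕ, ∀ i, ‖G i ^ t - W i‖ < ε := by
  classical
  by_contra hcon
  push Not at hcon
  have hG0 : ∀ i, G i ≠ 0 := fun i h => by have := hG i; rw [h, norm_zero] at this; norm_num at this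
  have hW0 : ∀ i, W i ≠ 0 := fun i h => by have := hW i; rw [h, norm_zero] at this; norm_num at this
  have hdist : ∀ i (t : ℕ), ‖G i ^ t * (W i)⁻¹ - 1‖ = ‖G i ^ t - W i‖ := by
    intro i t
    have : G i ^ t * (W i)⁻¹ - 1 = (G i ^ t - W i) * (W i)⁻¹ := by
      rw [sub_mul, mul_inv_cancel₀ (hW0 i)]
    rw [this, norm_mul, norm_inv, hW, inv_one, mul_one]
  have hnorm : ∀ i (t : ℕ), ‖G i ^ t * (W i)⁻¹‖ = 1 := by
    intro i t
    rw [norm_mul, norm_pow, norm_inv, hG, hW]; simp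
  set n := Fintype.card ι with hn
  set r : ℝ := 1 - ε ^ 2 / 8 with hr
  have hεr : ε ≤ 2 := by
    obtain ⟨i, hi⟩ := hcon 0
    exact (norm_one_add (hnorm i 0) hε (by rw [hdist]; exact hi)).2
  have hr0 : 0 < r := by rw [hr]; nlinarith
  have hr1 : r < 1 := by rw [hr]; nlinarith [pow_pos hε 2]
  have bound : ∀ M t : ℕ, ‖∏ i, (1 + G i ^ t * (W i)⁻¹) ^ M‖ ≤ (2 ^ n * r) ^ M := by
    intro M t
    rw [Finset.prod_pow, norm_pow]
    refine pow_le_pow_left₀ (norm_nonneg _) ?_ M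
    obtain ⟨i, hi⟩ := hcon t
    rw [norm_prod, ← Finset.mul_prod_erase Finset.univ _ (Finset.mem_univ i)]
    have h1 := (norm_one_add (hnorm i t) hε (by rw [hdist]; exact hi)).1
    have h2 : ∏ x ∈ Finset.univ.erase i, ‖1 + G x ^ t * (W x)⁻¹‖ ≤ 2 ^ (n - 1) := by
      calc ∏ x ∈ Finset.univ.erase i, ‖1 + G x ^ t * (W x)⁻¹‖
          ≤ ∏ x ∈ Finset.univ.erase i, (2 : ℝ) := by
            refine Finset.prod_le_prod (fun _ _ => norm_nonneg _) fun x _ => ?_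
            calc ‖1 + G x ^ t * (W x)⁻¹‖ ≤ ‖(1:ℂ)‖ + ‖G x ^ t * (W x)⁻¹‖ := norm_add_le _ _
              _ = 2 := by rw [hnorm]; norm_num
        _ = 2 ^ (n - 1) := by
            rw [Finset.prod_const, Finset.card_erase_of_mem (Finset.mem_univ i), Finset.card_univ]
    have hn1 : 1 ≤ n := Fintype.card_pos_iff.mpr ⟨i⟩
    calc ‖1 + G i ^ t * (W i)⁻¹‖ * ∏ x ∈ Finset.univ.erase i, ‖1 + G x ^ t * (W x)⁻¹‖
        ≤ (2 * r) * 2 ^ (n - 1) := by
          refine mul_le_mul h1 h2 (Finset.prod_nonneg fun _ _ => norm_nonneg _) (by positivity)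
      _ = 2 ^ n * r := by
          obtain ⟨m, hm⟩ : ∃ m, n = m + 1 := ⟨n - 1, by omega⟩
          rw [hm, Nat.add_sub_cancel, pow_succ]; ring
  have expand : ∀ (M : ℕ) (z : ι → ℂ), ∏ i, (1 + z i) ^ M =
      ∑ k : ι → Fin (M + 1), ∏ i, ((M.choose (k i) : ℕ) : ℂ) * z i ^ (k i : ℕ) := by
    intro M z
    have h1 : ∀ i, (1 + z i) ^ M = ∑ j : Fin (M + 1), ((M.choose j : ℕ) : ℂ) * z i ^ (j : ℕ) := by
      intro i
      rw [add_comm, add_pow, Finset.sum_range]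
      refine Finset.sum_congr rfl fun j _ => ?_
      rw [one_pow, mul_one, mul_comm]
    simp only [h1]
    rw [Finset.prod_univ_sum, Fintype.piFinset_univ]
  have main : ∀ M : ℕ, (1 : ℝ) ≤ ((M : ℝ) + 1) ^ n * (r ^ 2) ^ M := by
    intro M
    have hp := parseval (K := ι → Fin (M + 1)) (fun k => ∏ i, (M.choose (k i) : ℝ))
      (fun k => ∏ i, (W i)⁻¹ ^ (k i : ℕ)) (fun k => ∏ i, G i ^ (k i : ℕ)) ((2 ^ n * r) ^ M)
      (fun k => Finset.prod_nonneg fun _ _ => Nat.cast_nonneg _)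
      (fun k => by rw [norm_prod]; simp [hW]) (fun k => by rw [norm_prod]; simp [hG])
      (by
        intro k k' hkk
        have h1 : ∏ i, G i ^ ((k i : ℤ) - (k' i : ℤ)) = 1 := by
          have : ∀ i, G i ^ ((k i : ℤ) - (k' i : ℤ)) = G i ^ (k i : ℕ) / G i ^ (k' i : ℕ) := by
            intro i
            rw [zpow_sub₀ (hG0 i), zpow_natCast, zpow_natCast]
          simp only [this]
          rw [Finset.prod_div_distrib, hkk, div_self]
          exact Finset.prod_ne_zero_iff.mpr fun i _ => pow_ne_zero _ (hG0 i)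
        have h2 := hrel _ h1
        have h3 : ∀ i, W i ^ ((k i : ℤ) - (k' i : ℤ)) = W i ^ (k i : ℕ) / W i ^ (k' i : ℕ) := by
          intro i
          rw [zpow_sub₀ (hW0 i), zpow_natCast, zpow_natCast]
        simp only [h3] at h2
        rw [Finset.prod_div_distrib, div_eq_one_iff_eq
          (Finset.prod_ne_zero_iff.mpr fun i _ => pow_ne_zero _ (hW0 i))] at h2
        simp only [inv_pow, Finset.prod_inv_distrib]
        rw [h2])
      (by
        intro t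
        have h4 : ∑ k : ι → Fin (M + 1), ((∏ i, (M.choose (k i) : ℝ) : ℝ) : ℂ) *
            (∏ i, (W i)⁻¹ ^ (k i : ℕ)) * (∏ i, G i ^ (k i : ℕ)) ^ t =
            ∏ i, (1 + G i ^ t * (W i)⁻¹) ^ M := by
          rw [expand]
          refine Finset.sum_congr rfl fun k _ => ?_
          push_cast
          rw [← Finset.prod_pow, ← Finset.prod_mul_distrib, ← Finset.prod_mul_distrib]
          refine Finset.prod_congr rfl fun i _ => ?_
          rw [mul_pow, ← pow_mul, ← pow_mul, mul_comm t]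
          ring
        rw [h4]
        exact bound M t)
    have hcs := sq_sum_le_card_mul_sum_sq (s := (Finset.univ : Finset (ι → Fin (M + 1))))
      (f := fun k => ∏ i, (M.choose (k i) : ℝ))
    have hcard : ((Finset.univ : Finset (ι → Fin (M + 1))).card : ℝ) = ((M : ℝ) + 1) ^ n := by
      rw [Finset.card_univ, Fintype.card_fun, Fintype.card_fin]
      push_cast
      rfl
    have hsum : ∑ k : ι → Fin (M + 1), ∏ i, (M.choose (k i) : ℝ) = (2 ^ n) ^ M := by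
      have h5 := expand M (fun _ => 1)
      simp only [one_pow, mul_one, Finset.prod_const] at h5
      have h6 : ((∑ k : ι → Fin (M + 1), ∏ i, (M.choose (k i) : ℝ) : ℝ) : ℂ) =
          (((2 ^ n) ^ M : ℝ) : ℂ) := by
        push_cast
        rw [← h5, Finset.card_univ, ← hn]
        norm_num
        rw [← pow_mul, ← pow_mul, mul_comm]
      exact_mod_cast h6
    rw [hsum, hcard] at hcs
    have h7 : ((2 ^ n : ℝ) ^ M) ^ 2 ≤ ((M : ℝ) + 1) ^ n * ((2 ^ n * r) ^ M) ^ 2 :=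
      hcs.trans (mul_le_mul_of_nonneg_left hp (by positivity))
    have h8 : ((M : ℝ) + 1) ^ n * ((2 ^ n * r) ^ M) ^ 2 =
        ((2 ^ n : ℝ) ^ M) ^ 2 * (((M : ℝ) + 1) ^ n * (r ^ 2) ^ M) := by
      rw [mul_pow, mul_pow, ← pow_mul r, ← pow_mul r, mul_comm M 2]
      ring
    rw [h8] at h7
    have h9 : (0 : ℝ) < ((2 ^ n : ℝ) ^ M) ^ 2 := by positivity
    exact (le_mul_iff_one_le_right h9).mp h7
  have hlim : Tendsto (fun M : ℕ => ((M : ℝ) + 1) ^ n * (r ^ 2) ^ M) atTop (𝓝 0) := by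
    have hr2 : |r ^ 2| < 1 := by
      rw [abs_of_pos (by positivity)]
      nlinarith
    have h1 := tendsto_pow_const_mul_const_pow_of_abs_lt_one n hr2
    have h2 := h1.comp (tendsto_add_atTop_nat 1)
    have h3 := h2.const_mul ((r ^ 2)⁻¹)
    rw [mul_zero] at h3
    refine h3.congr fun M => ?_
    simp only [Function.comp]
    push_cast
    field_simp
    ring
  have := ge_of_tendsto' hlim main
  norm_num at this

end KRO

/-- Two independent unimodular numbers: simultaneous approximation by large powers. -/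
theorem kron2 (z₁ z₂ w₁ w₂ : ℂ) (h1 : ‖z₁‖ = 1) (h2 : ‖z₂‖ = 1) (hw1 : ‖w₁‖ = 1) (hw2 : ‖w₂‖ = 1)
    (hi : ∀ a b : ℤ, z₁ ^ a * z₂ ^ b = 1 → a = 0 ∧ b = 0) (ε : ℝ) (hε : 0 < ε) (T : ℕ) :
    ∃ n, T ≤ n ∧ ‖z₁ ^ n - w₁‖ < ε ∧ ‖z₂ ^ n - w₂‖ < ε := by
  have hz1 : z₁ ≠ 0 := fun h => by rw [h, norm_zero] at h1; norm_num at h1
  have hz2 : z₂ ≠ 0 := fun h => by rw [h, norm_zero] at h2; norm_num at h2
  obtain ⟨t, ht⟩ := KRO.core (ι := Fin 2) ![z₁, z₂] ![w₁ / z₁ ^ T, w₂ / z₂ ^ T]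
    (by intro i; fin_cases i <;> simp [h1, h2])
    (by intro i; fin_cases i <;> simp [h1, h2, hw1, hw2])
    (by
      intro e he
      simp only [Fin.prod_univ_two, Matrix.cons_val_zero, Matrix.cons_val_one] at he
      obtain ⟨e0, e1⟩ := hi _ _ he
      simp [Fin.prod_univ_two, e0, e1]) ε hε
  refine ⟨T + t, by omega, ?_, ?_⟩
  · have h := ht 0
    simp only [Matrix.cons_val_zero] at h
    have h4 : z₁ ^ (T + t) - w₁ = z₁ ^ T * (z₁ ^ t - w₁ / z₁ ^ T) := by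
      rw [mul_sub, mul_div_cancel₀ _ (pow_ne_zero _ hz1), pow_add]
    rw [h4, norm_mul, norm_pow, h1, one_pow, one_mul]
    exact h
  · have h := ht 1
    simp only [Matrix.cons_val_one] at h
    have h4 : z₂ ^ (T + t) - w₂ = z₂ ^ T * (z₂ ^ t - w₂ / z₂ ^ T) := by
      rw [mul_sub, mul_div_cancel₀ _ (pow_ne_zero _ hz2), pow_add]
    rw [h4, norm_mul, norm_pow, h2, one_pow, one_mul]
    exact h

end Pool.Agent.Q81.NH
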