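import Mathlib
import Pool.Agent.Q81.NH.Kron

/-!
# A generic choice of the coefficient
-/

set_option autoImplicit false

namespace Pool.Agent.Q81.NH

open Complex Filter Topology

/-- the values -/
noncomputable def val (l₁ l₂ : ℂ) (n : ℕ) (s : ℂ) : ℂ :=
  l₁ ^ n * (1 / 2 + n * s) + l₂ ^ n * (1 / 2 + n * starRingEnd ℂ s)

lemma val_cont (l₁ l₂ : ℂ) (n : ℕ) : Continuous (val l₁ l₂ n) := by
  unfold val
  fun_prop

/-- half angles are continuous at one -/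
lemma half_cont (τ : ℝ) (hτ : 0 < τ) : ∃ η : ℝ, 0 < η ∧ ∀ a b : ℂ, ‖a - 1‖ < η → ‖b - 1‖ < η →
    ‖exp (I * (((arg a + arg b) / 2 : ℝ) : ℂ)) - 1‖ < τ ∧
    ‖exp (I * (((arg a - arg b) / 2 : ℝ) : ℂ)) - 1‖ < τ := by
  have ha : ContinuousAt arg (1 : ℂ) := continuousAt_arg (by simp [slitPlane])
  have h1 : ContinuousAt (fun p : ℂ × ℂ => exp (I * (((arg p.1 + arg p.2) / 2 : ℝ) : ℂ))) (1, 1) := by
    have e1 : ContinuousAt (fun p : ℂ × ℂ => arg p.1) (1, 1) :=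
      Filter.Tendsto.comp (show Tendsto arg (𝓝 (1 : ℂ)) (𝓝 (arg 1)) from ha)
        (continuous_fst.tendsto ((1 : ℂ), (1 : ℂ)))
    have e2 : ContinuousAt (fun p : ℂ × ℂ => arg p.2) (1, 1) :=
      Filter.Tendsto.comp (show Tendsto arg (𝓝 (1 : ℂ)) (𝓝 (arg 1)) from ha)
        (continuous_snd.tendsto ((1 : ℂ), (1 : ℂ)))
    have e3 : ContinuousAt (fun p : ℂ × ℂ => (arg p.1 + arg p.2) / 2) (1, 1) :=
      (e1.add e2).div_const 2
    have e4 : ContinuousAt (fun p : ℂ × ℂ => (((arg p.1 + arg p.2) / 2 : ℝ) : ℂ)) (1, 1) :=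
      ContinuousAt.comp (f := fun p : ℂ × ℂ => (arg p.1 + arg p.2) / 2)
        continuous_ofReal.continuousAt e3
    exact ContinuousAt.comp (f := fun p : ℂ × ℂ => I * (((arg p.1 + arg p.2) / 2 : ℝ) : ℂ))
      continuous_exp.continuousAt (continuousAt_const.mul e4)
  have h2 : ContinuousAt (fun p : ℂ × ℂ => exp (I * (((arg p.1 - arg p.2) / 2 : ℝ) : ℂ))) (1, 1) := by
    have e1 : ContinuousAt (fun p : ℂ × ℂ => arg p.1) (1, 1) :=
      Filter.Tendsto.comp (show Tendsto arg (𝓝 (1 : ℂ)) (𝓝 (arg 1)) from ha)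
        (continuous_fst.tendsto ((1 : ℂ), (1 : ℂ)))
    have e2 : ContinuousAt (fun p : ℂ × ℂ => arg p.2) (1, 1) :=
      Filter.Tendsto.comp (show Tendsto arg (𝓝 (1 : ℂ)) (𝓝 (arg 1)) from ha)
        (continuous_snd.tendsto ((1 : ℂ), (1 : ℂ)))
    have e3 : ContinuousAt (fun p : ℂ × ℂ => (arg p.1 - arg p.2) / 2) (1, 1) :=
      (e1.sub e2).div_const 2
    have e4 : ContinuousAt (fun p : ℂ × ℂ => (((arg p.1 - arg p.2) / 2 : ℝ) : ℂ)) (1, 1) :=
      ContinuousAt.comp (f := fun p : ℂ × ℂ => (arg p.1 - arg p.2) / 2)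
        continuous_ofReal.continuousAt e3
    exact ContinuousAt.comp (f := fun p : ℂ × ℂ => I * (((arg p.1 - arg p.2) / 2 : ℝ) : ℂ))
      continuous_exp.continuousAt (continuousAt_const.mul e4)
  rw [Metric.continuousAt_iff] at h1 h2
  obtain ⟨η1, hη1, H1⟩ := h1 τ hτ
  obtain ⟨η2, hη2, H2⟩ := h2 τ hτ
  refine ⟨min η1 η2, lt_min hη1 hη2, fun a b ha hb => ?_⟩
  have e1 : dist ((a, b) : ℂ × ℂ) (1, 1) < η1 := by
    rw [Prod.dist_eq, max_lt_iff, dist_eq_norm, dist_eq_norm]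
    exact ⟨ha.trans_le (min_le_left _ _), hb.trans_le (min_le_left _ _)⟩
  have e2 : dist ((a, b) : ℂ × ℂ) (1, 1) < η2 := by
    rw [Prod.dist_eq, max_lt_iff, dist_eq_norm, dist_eq_norm]
    exact ⟨ha.trans_le (min_le_right _ _), hb.trans_le (min_le_right _ _)⟩
  have g1 := H1 e1
  have g2 := H2 e2
  rw [dist_eq_norm] at g1 g2
  simp only [arg_one, add_zero, zero_div, ofReal_zero, mul_zero, exp_zero, sub_zero] at g1 g2
  exact ⟨g1, g2⟩

lemma conj_unit {w : ℂ} (h : ‖w‖ = 1) : starRingEnd ℂ w * w = 1 := by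
  rw [← Complex.normSq_eq_conj_mul_self, Complex.normSq_eq_norm_sq, h]
  norm_num

/-- the main density step -/
lemma step (l₁ l₂ : ℂ) (h12 : ‖l₁‖ = ‖l₂‖) (h1 : 1 ≤ ‖l₁‖)
    (hi : ∀ a b : ℤ, (l₁ / ‖l₁‖) ^ a * (l₂ / ‖l₂‖) ^ b = 1 → a = 0 ∧ b = 0)
    (s₀ v : ℂ) (ρ ε : ℝ) (hρ : 0 < ρ) (hε : 0 < ε) :
    ∃ (n : ℕ) (s : ℂ), ‖s - s₀‖ < ρ ∧ ‖val l₁ l₂ n s - v‖ < ε := by
  set r := ‖l₁‖ with hr
  have hr0 : 0 < r := by linarith
  have hrC : (r : ℂ) ≠ 0 := by exact_mod_cast hr0.ne'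
  set z₁ : ℂ := l₁ / r with hz1
  set z₂ : ℂ := l₂ / r with hz2
  have hz1n : ‖z₁‖ = 1 := by
    rw [hz1, norm_div, Complex.norm_real, Real.norm_of_nonneg hr0.le, ← hr, div_self hr0.ne']
  have hz2n : ‖z₂‖ = 1 := by
    rw [hz2, norm_div, Complex.norm_real, Real.norm_of_nonneg hr0.le, ← h12, div_self hr0.ne']
  have hl1 : l₁ = r * z₁ := by rw [hz1]; field_simp
  have hl2 : l₂ = r * z₂ := by rw [hz2]; field_simp
  rw [← h12] at hi
  -- the phases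
  obtain ⟨u₀, hu₀, hv⟩ : ∃ u₀ : ℂ, ‖u₀‖ = 1 ∧ v = ‖v‖ * u₀ := by
    refine ⟨exp (arg v * I), norm_exp_ofReal_mul_I _, (norm_mul_exp_arg_mul_I v).symm⟩
  obtain ⟨w₀, y₀, hw₀, hwy⟩ : ∃ (w₀ : ℂ) (y₀ : ℝ), ‖w₀‖ = 1 ∧
      starRingEnd ℂ w₀ * (I * y₀) = s₀ := by
    by_cases h0 : s₀ = 0
    · exact ⟨1, 0, by simp, by simp [h0]⟩
    · refine ⟨I * starRingEnd ℂ s₀ / ‖s₀‖, ‖s₀‖, ?_, ?_⟩
      · have hn : ‖s₀‖ ≠ 0 := norm_ne_zero_iff.2 h0
        rw [norm_div, norm_mul, Complex.norm_real, norm_norm, Complex.norm_I, one_mul]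
        rw [show ‖starRingEnd ℂ s₀‖ = ‖s₀‖ from RCLike.norm_conj s₀, div_self hn]
      · have hn : (‖s₀‖ : ℂ) ≠ 0 := by exact_mod_cast norm_ne_zero_iff.2 h0
        simp only [map_div₀, map_mul, Complex.conj_I, Complex.conj_conj, Complex.conj_ofReal]
        field_simp
        rw [Complex.I_sq]
        ring
  set τ : ℝ := min (ρ / (2 * (|y₀| + 1))) (ε / (‖v‖ + 1)) with hτ
  have hτ0 : 0 < τ := lt_min (by positivity) (by positivity)
  obtain ⟨η, hη, H⟩ := half_cont τ hτ0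
  obtain ⟨T, hT⟩ := exists_nat_gt ((‖v‖ / 2 + 1 / 2) / (ρ / 2))
  obtain ⟨n, hnT, hn1, hn2⟩ := kron2 z₁ z₂ (u₀ * w₀) (u₀ * starRingEnd ℂ w₀) hz1n hz2n
    (by rw [norm_mul, hu₀, hw₀, one_mul])
    (by rw [norm_mul, hu₀, show ‖starRingEnd ℂ w₀‖ = ‖w₀‖ from RCLike.norm_conj w₀, hw₀, one_mul])
    hi η hη (T + 1)
  have hn0 : 0 < n := by omega
  have hnC : (n : ℂ) ≠ 0 := by exact_mod_cast hn0.ne'
  have hu0' : u₀ ≠ 0 := fun h => by rw [h, norm_zero] at hu₀; norm_num at hu₀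
  have hw0' : w₀ ≠ 0 := fun h => by rw [h, norm_zero] at hw₀; norm_num at hw₀
  have hw0c : starRingEnd ℂ w₀ ≠ 0 := by simpa using hw0'
  set k₁ : ℂ := z₁ ^ n / (u₀ * w₀) with hk1
  set k₂ : ℂ := z₂ ^ n / (u₀ * starRingEnd ℂ w₀) with hk2
  have ek1 : z₁ ^ n = u₀ * w₀ * k₁ := by rw [hk1]; field_simp
  have ek2 : z₂ ^ n = u₀ * starRingEnd ℂ w₀ * k₂ := by rw [hk2]; field_simp
  have nk1 : ‖k₁‖ = 1 := by rw [hk1, norm_div, norm_pow, hz1n, norm_mul, hu₀, hw₀]; norm_num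
  have nk2 : ‖k₂‖ = 1 := by
    rw [hk2, norm_div, norm_pow, hz2n, norm_mul, hu₀,
      show ‖starRingEnd ℂ w₀‖ = ‖w₀‖ from RCLike.norm_conj w₀, hw₀]; norm_num
  have dk1 : ‖k₁ - 1‖ < η := by
    have : z₁ ^ n - u₀ * w₀ = u₀ * w₀ * (k₁ - 1) := by rw [ek1]; ring
    rw [this, norm_mul, norm_mul, hu₀, hw₀, one_mul, one_mul] at hn1
    exact hn1
  have dk2 : ‖k₂ - 1‖ < η := by
    have : z₂ ^ n - u₀ * starRingEnd ℂ w₀ = u₀ * starRingEnd ℂ w₀ * (k₂ - 1) := by rw [ek2]; ring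
    rw [this, norm_mul, norm_mul, hu₀, show ‖starRingEnd ℂ w₀‖ = ‖w₀‖ from RCLike.norm_conj w₀,
      hw₀, one_mul, one_mul] at hn2
    exact hn2
  obtain ⟨g1, g2⟩ := H k₁ k₂ dk1 dk2
  set a₁ := arg k₁
  set a₂ := arg k₂
  have x1 : k₁ = exp (I * a₁) := by
    have := norm_mul_exp_arg_mul_I k₁
    rw [nk1, ofReal_one, one_mul] at this
    rw [mul_comm]; exact this.symm
  have x2 : k₂ = exp (I * a₂) := by
    have := norm_mul_exp_arg_mul_I k₂
    rw [nk2, ofReal_one, one_mul] at this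
    rw [mul_comm]; exact this.symm
  set p : ℂ := exp (I * (((a₁ + a₂) / 2 : ℝ) : ℂ)) with hp
  set q : ℂ := exp (I * (((a₁ - a₂) / 2 : ℝ) : ℂ)) with hq
  have nq : ‖q‖ = 1 := by rw [hq, mul_comm]; exact norm_exp_ofReal_mul_I _
  have np : ‖p‖ = 1 := by rw [hp, mul_comm]; exact norm_exp_ofReal_mul_I _
  have hqc : starRingEnd ℂ q = exp (-(I * (((a₁ - a₂) / 2 : ℝ) : ℂ))) := by
    rw [hq, ← Complex.exp_conj]
    congr 1
    rw [map_mul, conj_I, conj_ofReal]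
    ring
  have e1 : p * q = k₁ := by
    rw [hp, hq, x1, ← exp_add]
    congr 1
    push_cast
    ring
  have e2 : p * starRingEnd ℂ q = k₂ := by
    rw [hqc, hp, x2, ← exp_add]
    congr 1
    push_cast
    ring
  set u := u₀ * p with hu
  set w := w₀ * q with hw
  have nw : ‖w‖ = 1 := by rw [hw, norm_mul, hw₀, nq, one_mul]
  have z1e : z₁ ^ n = u * w := by rw [ek1, ← e1, hu, hw]; ring
  have z2e : z₂ ^ n = u * starRingEnd ℂ w := by rw [ek2, ← e2, hu, hw, map_mul]; ring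
  set t : ℝ := ‖v‖ / r ^ n with ht
  have hrn : (1 : ℝ) ≤ r ^ n := one_le_pow₀ h1
  have ht0 : 0 ≤ t := by positivity
  have ht1 : t ≤ ‖v‖ := div_le_self (norm_nonneg _) hrn
  set A : ℂ := starRingEnd ℂ w * (t / 2 + I * (n * y₀)) with hA
  refine ⟨n, (A - 1 / 2) / n, ?_, ?_⟩
  · have e : (A - 1 / 2) / n - s₀ = (starRingEnd ℂ w - starRingEnd ℂ w₀) * (I * y₀) +
        (starRingEnd ℂ w * (t / 2) - 1 / 2) / n := by
      rw [← hwy, hA]
      field_simp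
      ring
    have f1 : ‖(starRingEnd ℂ w - starRingEnd ℂ w₀) * (I * y₀)‖ ≤ τ * |y₀| := by
      rw [norm_mul, norm_mul, Complex.norm_I, one_mul, Complex.norm_real, Real.norm_eq_abs]
      refine mul_le_mul_of_nonneg_right ?_ (abs_nonneg _)
      rw [← map_sub, show ‖starRingEnd ℂ (w - w₀)‖ = ‖w - w₀‖ from RCLike.norm_conj _]
      have : w - w₀ = w₀ * (q - 1) := by rw [hw]; ring
      rw [this, norm_mul, hw₀, one_mul]
      exact g2.le
    have f2 : ‖(starRingEnd ℂ w * (t / 2) - 1 / 2) / n‖ ≤ (‖v‖ / 2 + 1 / 2) / n := by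
      rw [norm_div, Complex.norm_natCast]
      refine div_le_div_of_nonneg_right ?_ (Nat.cast_nonneg _)
      refine (norm_sub_le _ _).trans ?_
      have : ‖starRingEnd ℂ w * ((t : ℂ) / 2)‖ = t / 2 := by
        rw [norm_mul, show ‖starRingEnd ℂ w‖ = ‖w‖ from RCLike.norm_conj _, nw, one_mul, norm_div,
          Complex.norm_real, Real.norm_of_nonneg ht0]
        norm_num
      rw [this]
      have : ‖(1 / 2 : ℂ)‖ = 1 / 2 := by norm_num
      rw [this]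
      linarith
    rw [e]
    refine (norm_add_le _ _).trans_lt ?_
    have f3 : τ * |y₀| < ρ / 2 := by
      have : τ ≤ ρ / (2 * (|y₀| + 1)) := min_le_left _ _
      have hy : 0 ≤ |y₀| := abs_nonneg _
      calc τ * |y₀| ≤ ρ / (2 * (|y₀| + 1)) * |y₀| := mul_le_mul_of_nonneg_right this hy
        _ < ρ / (2 * (|y₀| + 1)) * (|y₀| + 1) := by
            refine mul_lt_mul_of_pos_left (by linarith) (by positivity)
        _ = ρ / 2 := by field_simp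
    have f4 : (‖v‖ / 2 + 1 / 2) / n < ρ / 2 := by
      have hn' : (T : ℝ) < n := by exact_mod_cast (by omega : T < n)
      have hn'' : (0 : ℝ) < n := by exact_mod_cast hn0
      rw [div_lt_iff₀ hn'']
      rw [div_lt_iff₀ (by positivity)] at hT
      nlinarith
    linarith
  · have hval : val l₁ l₂ n ((A - 1 / 2) / n) = u * ‖v‖ := by
      unfold val
      have c1 : (1 / 2 + (n : ℂ) * ((A - 1 / 2) / n)) = A := by field_simp; ring
      have c2 : (1 / 2 + (n : ℂ) * starRingEnd ℂ ((A - 1 / 2) / n)) = starRingEnd ℂ A := by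
        simp only [map_div₀, map_sub, map_one, map_natCast]
        have : starRingEnd ℂ (2 : ℂ) = 2 := by
          have := map_natCast (starRingEnd ℂ) 2
          simpa using this
        rw [this]
        field_simp
        ring
      rw [c1, c2, hl1, hl2, mul_pow, mul_pow, z1e, z2e, hA]
      simp only [map_mul, map_add, map_div₀, Complex.conj_conj, conj_I, conj_ofReal, map_natCast]
      have : starRingEnd ℂ (2 : ℂ) = 2 := by
        have := map_natCast (starRingEnd ℂ) 2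
        simpa using this
      rw [this]
      have hww : starRingEnd ℂ w * w = 1 := conj_unit nw
      have htC : (r : ℂ) ^ n * t = ‖v‖ := by
        rw [ht]
        push_cast
        field_simp
      calc (r : ℂ) ^ n * (u * w) * (starRingEnd ℂ w * (t / 2 + I * (n * y₀))) +
          (r : ℂ) ^ n * (u * starRingEnd ℂ w) * (w * (t / 2 + -I * (n * y₀)))
          = u * (starRingEnd ℂ w * w) * ((r : ℂ) ^ n * t) := by ring
        _ = u * ‖v‖ := by rw [hww, htC, mul_one]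
    rw [hval]
    have : u * ‖v‖ - v = v * (p - 1) := by
      conv_lhs => rw [hv]
      conv_rhs => rw [hv]
      rw [hu]
      simp only [norm_mul, norm_norm, Complex.norm_real, hu₀, mul_one]
      ring
    rw [this, norm_mul]
    have : τ ≤ ε / (‖v‖ + 1) := min_le_right _ _
    calc ‖v‖ * ‖p - 1‖ ≤ ‖v‖ * τ := mul_le_mul_of_nonneg_left g1.le (norm_nonneg _)
      _ ≤ ‖v‖ * (ε / (‖v‖ + 1)) := mul_le_mul_of_nonneg_left this (norm_nonneg _)
      _ < (‖v‖ + 1) * (ε / (‖v‖ + 1)) :=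
          mul_lt_mul_of_pos_right (by linarith) (by positivity)
      _ = ε := by field_simp

/-- A small coefficient with a dense sequence of values. -/
theorem exists_dense (l₁ l₂ : ℂ) (h12 : ‖l₁‖ = ‖l₂‖) (h1 : 1 ≤ ‖l₁‖)
    (hi : ∀ a b : ℤ, (l₁ / ‖l₁‖) ^ a * (l₂ / ‖l₂‖) ^ b = 1 → a = 0 ∧ b = 0)
    (δ : ℝ) (hδ : 0 < δ) :
    ∃ s : ℂ, ‖s‖ < δ ∧ Dense (Set.range fun n : ℕ => val l₁ l₂ n s) := by
  have hd : Dense (⋂ p : ℕ × ℕ, {s : ℂ | ∃ n : ℕ,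
      ‖val l₁ l₂ n s - TopologicalSpace.denseSeq ℂ p.1‖ < 1 / ((p.2 : ℝ) + 1)}) := by
    refine dense_iInter_of_isOpen (fun p => ?_) (fun p => ?_)
    · have : {s : ℂ | ∃ n : ℕ, ‖val l₁ l₂ n s - TopologicalSpace.denseSeq ℂ p.1‖ <
          1 / ((p.2 : ℝ) + 1)} = ⋃ n : ℕ, {s : ℂ | ‖val l₁ l₂ n s -
          TopologicalSpace.denseSeq ℂ p.1‖ < 1 / ((p.2 : ℝ) + 1)} := by
        ext s; simp
      rw [this]
      refine isOpen_iUnion fun n => ?_
      exact isOpen_lt ((val_cont l₁ l₂ n).sub continuous_const).norm continuous_const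
    · rw [Metric.dense_iff]
      intro s₀ ρ hρ
      obtain ⟨n, s, hs1, hs2⟩ := step l₁ l₂ h12 h1 hi s₀ (TopologicalSpace.denseSeq ℂ p.1) ρ
        (1 / ((p.2 : ℝ) + 1)) hρ (by positivity)
      exact ⟨s, by rw [Metric.mem_ball, dist_eq_norm]; exact hs1, n, hs2⟩
  obtain ⟨s, hs, hs'⟩ := (Metric.dense_iff.1 hd) 0 δ hδ
  rw [Metric.mem_ball, dist_zero_right] at hs
  refine ⟨s, hs, ?_⟩
  rw [Metric.dense_iff]
  intro v ε hε
  obtain ⟨k, hk⟩ := exists_nat_one_div_lt (half_pos hε)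
  obtain ⟨y, hy, ⟨i, hi'⟩⟩ := (Metric.dense_iff.1 (TopologicalSpace.denseRange_denseSeq ℂ)) v (ε / 2)
    (half_pos hε)
  rw [Set.mem_iInter] at hs'
  obtain ⟨n, hn⟩ := hs' (i, k)
  refine ⟨val l₁ l₂ n s, ?_, ⟨n, rfl⟩⟩
  rw [Metric.mem_ball] at hy ⊢
  simp only at hn
  rw [hi'] at hn
  calc dist (val l₁ l₂ n s) v ≤ dist (val l₁ l₂ n s) y + dist y v := dist_triangle _ _ _
    _ < ε / 2 + ε / 2 := add_lt_add (by rw [dist_eq_norm]; exact hn.trans hk) hy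
    _ = ε := by ring

end Pool.Agent.Q81.NH
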