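import Mathlib

/-!
# The variational step: norming pairs with prescribed values
-/

set_option autoImplicit false

namespace Pool.Agent.Q81.NH

open Complex Filter Topology

variable {X : Type*} [NormedAddCommGroup X] [NormedSpace ℂ X]

/-- the derivative form -/
noncomputable def Phi (s₁ s₂ : ℂ) (v h : Fin 4 → ℂ) : ℂ :=
  1 / 2 * (h 1 / v 1) + 1 / 2 * (h 3 / v 3) + s₁ * ((h 0 * v 1 - v 0 * h 1) / v 1 ^ 2) +
    s₂ * ((h 2 * v 3 - v 2 * h 3) / v 3 ^ 2)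

/-- the function to be maximised -/
noncomputable def G (s₁ s₂ : ℂ) (v : Fin 4 → ℂ) : ℝ :=
  1 / 2 * Real.log ‖v 1‖ + 1 / 2 * Real.log ‖v 3‖ + (s₁ * (v 0 / v 1) + s₂ * (v 2 / v 3)).re

lemma G_smul (s₁ s₂ : ℂ) (v : Fin 4 → ℂ) (c : ℝ) (hc : 0 < c) (h1 : v 1 ≠ 0) (h3 : v 3 ≠ 0) :
    G s₁ s₂ ((c : ℂ)⁻¹ • v) = G s₁ s₂ v - Real.log c := by
  have hcC : (c : ℂ)⁻¹ ≠ 0 := inv_ne_zero (by exact_mod_cast hc.ne')
  unfold G
  simp only [Pi.smul_apply, smul_eq_mul]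
  rw [mul_div_mul_left _ _ hcC, mul_div_mul_left _ _ hcC]
  have e : ∀ z : ℂ, z ≠ 0 → Real.log ‖(c : ℂ)⁻¹ * z‖ = Real.log ‖z‖ - Real.log c := by
    intro z hz
    rw [norm_mul, norm_inv, Complex.norm_real, Real.norm_of_nonneg hc.le,
      Real.log_mul (inv_ne_zero hc.ne') (norm_ne_zero_iff.2 hz), Real.log_inv]
    ring
  rw [e _ h1, e _ h3]
  ring

lemma G_deriv (s₁ s₂ : ℂ) (v h : Fin 4 → ℂ) (h1 : v 1 ≠ 0) (h3 : v 3 ≠ 0) :
    HasDerivAt (fun t : ℝ => G s₁ s₂ (v + (t : ℂ) • h)) (Phi s₁ s₂ v h).re 0 := by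
  have ht : HasDerivAt (fun t : ℝ => (t : ℂ)) 1 0 := by
    simpa using (hasDerivAt_id (0 : ℝ)).ofReal_comp
  have hl : ∀ z : ℂ, HasDerivAt (fun t : ℝ => Complex.log (1 + t * z)) z 0 := by
    intro z
    have h0 : HasDerivAt (fun t : ℝ => (1 : ℂ) + t * z) (1 * z) 0 := (ht.mul_const z).const_add 1
    have := h0.clog_real (by simp [slitPlane])
    simpa using this
  have hq : ∀ a b x y : ℂ, b ≠ 0 → HasDerivAt (fun t : ℝ => (a + t * x) / (b + t * y))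
      ((x * b - a * y) / b ^ 2) 0 := by
    intro a b x y hb
    have e1 : HasDerivAt (fun t : ℝ => a + t * x) (1 * x) 0 := (ht.mul_const x).const_add a
    have e2 : HasDerivAt (fun t : ℝ => b + t * y) (1 * y) 0 := (ht.mul_const y).const_add b
    have := e1.div e2 (by simpa using hb)
    have e3 : (1 * x * (b + ((0 : ℝ) : ℂ) * y) - (a + ((0 : ℝ) : ℂ) * x) * (1 * y)) /
        (b + ((0 : ℝ) : ℂ) * y) ^ 2 = (x * b - a * y) / b ^ 2 := by simp
    rw [e3] at this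
    exact this
  have H : HasDerivAt (fun t : ℝ => (1 / 2 * Complex.log (1 + t * (h 1 / v 1)) +
      1 / 2 * Complex.log (1 + t * (h 3 / v 3)) +
      s₁ * ((v 0 + t * h 0) / (v 1 + t * h 1)) + s₂ * ((v 2 + t * h 2) / (v 3 + t * h 3))))
      (Phi s₁ s₂ v h) 0 := by
    unfold Phi
    exact ((((hl _).const_mul _).add ((hl _).const_mul _)).add ((hq _ _ _ _ h1).const_mul _)).add
      ((hq _ _ _ _ h3).const_mul _)
  have H2 := (Complex.reCLM.hasFDerivAt (x := (1 / 2 * Complex.log (1 + (0 : ℝ) * (h 1 / v 1)) +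
      1 / 2 * Complex.log (1 + (0 : ℝ) * (h 3 / v 3)) +
      s₁ * ((v 0 + (0 : ℝ) * h 0) / (v 1 + (0 : ℝ) * h 1)) +
      s₂ * ((v 2 + (0 : ℝ) * h 2) / (v 3 + (0 : ℝ) * h 3))))).comp_hasDerivAt (0 : ℝ) H
  have H3 := H2.add_const (1 / 2 * Real.log ‖v 1‖ + 1 / 2 * Real.log ‖v 3‖)
  refine HasDerivAt.congr_of_eventuallyEq H3 ?_
  -- near `0` the values `v i + t h i` do not vanish
  have c1 : ∀ᶠ t : ℝ in 𝓝 0, v 1 + t * h 1 ≠ 0 := by
    have : ContinuousAt (fun t : ℝ => v 1 + t * h 1) 0 := by fun_prop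
    exact this.eventually_ne (by simpa using h1)
  have c3 : ∀ᶠ t : ℝ in 𝓝 0, v 3 + t * h 3 ≠ 0 := by
    have : ContinuousAt (fun t : ℝ => v 3 + t * h 3) 0 := by fun_prop
    exact this.eventually_ne (by simpa using h3)
  filter_upwards [c1, c3] with t k1 k3
  have e : ∀ a b : ℂ, a ≠ 0 → a + t * b ≠ 0 →
      Real.log ‖a + t * b‖ = (Complex.log (1 + t * (b / a))).re + Real.log ‖a‖ := by
    intro a b ha hab
    rw [Complex.log_re]
    have : a + t * b = (1 + t * (b / a)) * a := by field_simp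
    rw [this, norm_mul, Real.log_mul]
    · intro h0
      rw [norm_eq_zero] at h0
      rw [h0, zero_mul] at this
      exact hab this
    · exact norm_ne_zero_iff.2 ha
  unfold G
  simp only [Function.comp, Pi.add_apply, Pi.smul_apply, smul_eq_mul, Complex.reCLM_apply]
  rw [e _ _ h1 k1, e _ _ h3 k3]
  simp only [Complex.add_re]
  have r : ∀ z : ℂ, (1 / 2 * z).re = 1 / 2 * z.re := by
    intro z
    simp
  rw [r, r]
  ring

/-- The variational principle. -/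
theorem var (J : (Fin 4 → ℂ) →ₗ[ℂ] X) (hJ : LinearMap.ker J = ⊥) :
    ∃ δ : ℝ, 0 < δ ∧ ∀ s₁ s₂ : ℂ, ‖s₁‖ < δ → ‖s₂‖ < δ → ∃ v : Fin 4 → ℂ, ‖J v‖ = 1 ∧
      v 1 ≠ 0 ∧ v 3 ≠ 0 ∧ ∀ h, (Phi s₁ s₂ v h).re ≤ ‖J h‖ := by
  obtain ⟨K, hK, hanti⟩ := J.exists_antilipschitzWith hJ
  have hKb : ∀ v, ‖v‖ ≤ K * ‖J v‖ := by
    intro v
    have := hanti.le_mul_dist v 0
    simpa using this
  have hJc : Continuous J := J.continuous_of_finiteDimensional
  have hJi : Function.Injective J := LinearMap.ker_eq_bot.1 hJ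
  set S : Set (Fin 4 → ℂ) := {v | ‖J v‖ = 1} with hS
  have hSc : IsCompact S := by
    refine Metric.isCompact_of_isClosed_isBounded ?_ ?_
    · exact isClosed_eq hJc.norm continuous_const
    · rw [isBounded_iff_forall_norm_le]
      refine ⟨K, fun v hv => ?_⟩
      have := hKb v
      rw [hS, Set.mem_ofPred_eq] at hv
      rwa [hv, mul_one] at this
  -- a starting vector
  set u : Fin 4 → ℂ := ![0, 1, 0, 1] with hu
  have hu0 : u ≠ 0 := by
    intro h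
    have := congrFun h 1
    simp [hu] at this
  have hJu : 0 < ‖J u‖ := norm_pos_iff.2 (fun h => hu0 (hJi (by rw [h, map_zero])))
  set u' : Fin 4 → ℂ := ((‖J u‖ : ℝ) : ℂ)⁻¹ • u with hu'
  have hu'S : u' ∈ S := by
    rw [hS, Set.mem_ofPred_eq, hu', map_smul, norm_smul, norm_inv, Complex.norm_real,
      norm_norm, inv_mul_cancel₀ hJu.ne']
  have hpc : Continuous fun v : Fin 4 → ℂ => ‖v 1‖ * ‖v 3‖ := by fun_prop
  obtain ⟨v₀, hv₀S, hv₀⟩ := hSc.exists_isMaxOn ⟨u', hu'S⟩ hpc.continuousOn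
  set m : ℝ := ‖v₀ 1‖ * ‖v₀ 3‖ with hm
  have hm0 : 0 < m := by
    have h1 := hv₀ hu'S
    simp only [Set.mem_ofPred_eq] at h1
    refine lt_of_lt_of_le ?_ h1
    have e1 : u' 1 = ((‖J u‖ : ℝ) : ℂ)⁻¹ := by simp [hu', hu]
    have e3 : u' 3 = ((‖J u‖ : ℝ) : ℂ)⁻¹ := by simp [hu', hu]
    rw [e1, e3, norm_inv, Complex.norm_real, norm_norm]
    positivity
  have hmax : ∀ v ∈ S, ‖v 1‖ * ‖v 3‖ ≤ m := fun v hv => hv₀ hv
  have hK0 : (0 : ℝ) < K := by
    have h1 := hKb v₀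
    have h2 : ‖J v₀‖ = 1 := hv₀S
    rw [h2, mul_one] at h1
    refine lt_of_lt_of_le ?_ h1
    rw [norm_pos_iff]
    intro h
    rw [h, map_zero, norm_zero] at h2
    norm_num at h2
  set C : Set (Fin 4 → ℂ) := {v | ‖J v‖ = 1 ∧ m / 2 ≤ ‖v 1‖ * ‖v 3‖} with hC
  have hCc : IsCompact C := by
    have : C = S ∩ {v | m / 2 ≤ ‖v 1‖ * ‖v 3‖} := rfl
    rw [this]
    exact hSc.inter_right (isClosed_le continuous_const hpc)
  have hCK : ∀ v ∈ C, ∀ i, ‖v i‖ ≤ K := by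
    intro v hv i
    have h1 := hKb v
    rw [hv.1, mul_one] at h1
    exact (norm_le_pi_norm v i).trans h1
  have hC1 : ∀ v ∈ C, m / (2 * K) ≤ ‖v 1‖ := by
    intro v hv
    rw [div_le_iff₀ (by positivity)]
    have h1 := hCK v hv 3
    have h2 := hv.2
    have h3 : 0 ≤ ‖v 1‖ := norm_nonneg _
    nlinarith
  have hC3 : ∀ v ∈ C, m / (2 * K) ≤ ‖v 3‖ := by
    intro v hv
    rw [div_le_iff₀ (by positivity)]
    have h1 := hCK v hv 1
    have h2 := hv.2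
    have h3 : 0 ≤ ‖v 3‖ := norm_nonneg _
    nlinarith
  have hmK : 0 < m / (2 * K) := by positivity
  have hC10 : ∀ v ∈ C, v 1 ≠ 0 := fun v hv => norm_pos_iff.1 (hmK.trans_le (hC1 v hv))
  have hC30 : ∀ v ∈ C, v 3 ≠ 0 := fun v hv => norm_pos_iff.1 (hmK.trans_le (hC3 v hv))
  have hv₀C : v₀ ∈ C := ⟨hv₀S, by rw [← hm]; linarith⟩
  refine ⟨m / (32 * K ^ 2), by positivity, fun s₁ s₂ hs₁ hs₂ => ?_⟩
  -- bound for the linear part
  have hlin : ∀ v ∈ C, |(s₁ * (v 0 / v 1) + s₂ * (v 2 / v 3)).re| ≤ 1 / 8 := by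
    intro v hv
    have b : ∀ (s a b : ℂ), ‖s‖ < m / (32 * K ^ 2) → ‖a‖ ≤ K → m / (2 * K) ≤ ‖b‖ →
        ‖s * (a / b)‖ ≤ 1 / 16 := by
      intro s a b hs ha hb
      rw [norm_mul, norm_div]
      have hb0 : 0 < ‖b‖ := hmK.trans_le hb
      have h1 : ‖a‖ / ‖b‖ ≤ K / (m / (2 * K)) :=
        div_le_div₀ hK0.le ha hmK hb
      calc ‖s‖ * (‖a‖ / ‖b‖) ≤ (m / (32 * K ^ 2)) * (K / (m / (2 * K))) :=
            mul_le_mul hs.le h1 (by positivity) (by positivity)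
        _ = 1 / 16 := by field_simp; ring
    refine (Complex.abs_re_le_norm _).trans ((norm_add_le _ _).trans ?_)
    have h1 := b s₁ (v 0) (v 1) hs₁ (hCK v hv 0) (hC1 v hv)
    have h2 := b s₂ (v 2) (v 3) hs₂ (hCK v hv 2) (hC3 v hv)
    linarith
  have hGc : ContinuousOn (G s₁ s₂) C := by
    unfold G
    have a1 : ContinuousOn (fun v : Fin 4 → ℂ => Real.log ‖v 1‖) C :=
      ContinuousOn.log (by fun_prop) (fun v hv => norm_ne_zero_iff.2 (hC10 v hv))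
    have a3 : ContinuousOn (fun v : Fin 4 → ℂ => Real.log ‖v 3‖) C :=
      ContinuousOn.log (by fun_prop) (fun v hv => norm_ne_zero_iff.2 (hC30 v hv))
    have q1 : ContinuousOn (fun v : Fin 4 → ℂ => v 0 / v 1) C :=
      ContinuousOn.div (by fun_prop) (by fun_prop) (fun v hv => hC10 v hv)
    have q3 : ContinuousOn (fun v : Fin 4 → ℂ => v 2 / v 3) C :=
      ContinuousOn.div (by fun_prop) (by fun_prop) (fun v hv => hC30 v hv)
    refine ((continuousOn_const.mul a1).add (continuousOn_const.mul a3)).add ?_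
    exact Complex.continuous_re.comp_continuousOn
      ((continuousOn_const.mul q1).add (continuousOn_const.mul q3))
  obtain ⟨v, hvC, hv⟩ := hCc.exists_isMaxOn ⟨v₀, hv₀C⟩ hGc
  have hv' : ∀ w ∈ C, G s₁ s₂ w ≤ G s₁ s₂ v := fun w hw => hv hw
  have hG : ∀ w ∈ C, G s₁ s₂ w = 1 / 2 * Real.log (‖w 1‖ * ‖w 3‖) +
      (s₁ * (w 0 / w 1) + s₂ * (w 2 / w 3)).re := by
    intro w hw
    unfold G
    rw [Real.log_mul (norm_ne_zero_iff.2 (hC10 w hw)) (norm_ne_zero_iff.2 (hC30 w hw))]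
    ring
  have hint : m / 2 < ‖v 1‖ * ‖v 3‖ := by
    rcases lt_or_eq_of_le hvC.2 with h | h
    · exact h
    · exfalso
      have h1 := hv' v₀ hv₀C
      rw [hG v hvC, hG v₀ hv₀C, ← h, ← hm, Real.log_div hm0.ne' (by norm_num)] at h1
      have h2 := abs_le.1 (hlin v hvC)
      have h3 := abs_le.1 (hlin v₀ hv₀C)
      have h4 := Real.log_two_gt_d9
      linarith [h2.2, h3.1]
  refine ⟨v, hvC.1, hC10 v hvC, hC30 v hvC, fun h => ?_⟩
  have hd := G_deriv s₁ s₂ v h (hC10 v hvC) (hC30 v hvC)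
  have hsl := hd.tendsto_slope_zero_right
  refine le_of_tendsto hsl ?_
  -- eventually in `t > 0`
  have hcont : Continuous fun t : ℝ => v + (t : ℂ) • h := by fun_prop
  have hJt : ∀ᶠ t : ℝ in 𝓝 0, 0 < ‖J (v + (t : ℂ) • h)‖ := by
    have : ContinuousAt (fun t : ℝ => ‖J (v + (t : ℂ) • h)‖) 0 :=
      (hJc.comp hcont).norm.continuousAt
    refine this.eventually (lt_mem_nhds ?_)
    simp [hvC.1]
  have hpt : ∀ᶠ t : ℝ in 𝓝 0, m / 2 * ‖J (v + (t : ℂ) • h)‖ ^ 2 <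
      ‖(v + (t : ℂ) • h) 1‖ * ‖(v + (t : ℂ) • h) 3‖ := by
    have c1 : ContinuousAt (fun t : ℝ => m / 2 * ‖J (v + (t : ℂ) • h)‖ ^ 2) 0 :=
      (continuous_const.mul ((hJc.comp hcont).norm.pow 2)).continuousAt
    have c2 : ContinuousAt (fun t : ℝ => ‖(v + (t : ℂ) • h) 1‖ * ‖(v + (t : ℂ) • h) 3‖) 0 :=
      (hpc.comp hcont).continuousAt
    refine c1.eventually_lt c2 ?_
    simp only [ofReal_zero, zero_smul, add_zero, hvC.1]
    linarith
  filter_upwards [nhdsWithin_le_nhds hJt, nhdsWithin_le_nhds hpt, self_mem_nhdsWithin]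
    with t ht1 ht2 ht3
  rw [Set.mem_Ioi] at ht3
  set w := v + (t : ℂ) • h with hw
  set c := ‖J w‖ with hc
  have hw1 : w 1 ≠ 0 := by
    intro h0
    rw [h0, norm_zero, zero_mul] at ht2
    have : 0 ≤ m / 2 * c ^ 2 := by positivity
    linarith
  have hw3 : w 3 ≠ 0 := by
    intro h0
    rw [h0, norm_zero, mul_zero] at ht2
    have : 0 ≤ m / 2 * c ^ 2 := by positivity
    linarith
  have hwC : (c : ℂ)⁻¹ • w ∈ C := by
    refine ⟨?_, ?_⟩
    · rw [map_smul, norm_smul, norm_inv, Complex.norm_real, Real.norm_of_nonneg ht1.le, ← hc,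
        inv_mul_cancel₀ ht1.ne']
    · simp only [Pi.smul_apply, smul_eq_mul, norm_mul, norm_inv, Complex.norm_real,
        Real.norm_of_nonneg ht1.le]
      have : c⁻¹ * ‖w 1‖ * (c⁻¹ * ‖w 3‖) = (‖w 1‖ * ‖w 3‖) / c ^ 2 := by field_simp
      rw [this, le_div_iff₀ (by positivity)]
      exact ht2.le
  have h1 := hv' _ hwC
  rw [G_smul s₁ s₂ w c ht1 hw1 hw3] at h1
  have h2 : Real.log c ≤ c - 1 := Real.log_le_sub_one_of_pos ht1
  have h3 : c ≤ 1 + t * ‖J h‖ := by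
    rw [hc, hw, map_add, map_smul]
    refine (norm_add_le _ _).trans ?_
    rw [norm_smul, Complex.norm_real, Real.norm_of_nonneg ht3.le, hvC.1]
  have h4 : G s₁ s₂ w - G s₁ s₂ v ≤ t * ‖J h‖ := by linarith
  simp only [zero_add, ofReal_zero, zero_smul, add_zero, smul_eq_mul]
  rw [← hw, inv_mul_le_iff₀ ht3]
  exact h4

end Pool.Agent.Q81.NH
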