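import Mathlib
import Pool.Agent.Q81.NH.Gen
import Pool.Agent.Q81.NH.Var

/-!
# Two Jordan blocks
-/

set_option autoImplicit false

namespace Pool.Agent.Q81.NH

open Complex

variable {Y : Type*} [NormedAddCommGroup Y] [NormedSpace ℂ Y]

/-- the derivative form, as a linear map -/
noncomputable def PhiL (s₁ s₂ : ℂ) (v : Fin 4 → ℂ) : (Fin 4 → ℂ) →ₗ[ℂ] ℂ where
  toFun := Phi s₁ s₂ v
  map_add' := by
    intro a b
    unfold Phi
    simp only [Pi.add_apply]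
    ring
  map_smul' := by
    intro c a
    unfold Phi
    simp only [Pi.smul_apply, smul_eq_mul, RingHom.id_apply]
    ring

lemma PhiL_apply (s₁ s₂ : ℂ) (v h : Fin 4 → ℂ) : PhiL s₁ s₂ v h = Phi s₁ s₂ v h := rfl

/-- norm-one extension -/
lemma extend (J : (Fin 4 → ℂ) →ₗ[ℂ] Y) (hJ : Function.Injective J) (φ : (Fin 4 → ℂ) →ₗ[ℂ] ℂ)
    (hφ : ∀ h, (φ h).re ≤ ‖J h‖) (v : Fin 4 → ℂ) (hv : ‖J v‖ = 1) (h1 : φ v = 1) :
    ∃ f : Y →L[ℂ] ℂ, ‖f‖ = 1 ∧ (∀ h, f (J h) = φ h) := by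
  have hn : ∀ h, ‖φ h‖ ≤ ‖J h‖ := by
    intro h
    by_cases h0 : φ h = 0
    · rw [h0, norm_zero]; exact norm_nonneg _
    · have hne : (‖φ h‖ : ℂ) ≠ 0 := by exact_mod_cast norm_ne_zero_iff.2 h0
      set c : ℂ := starRingEnd ℂ (φ h) / ‖φ h‖ with hc
      have hc1 : ‖c‖ = 1 := by
        rw [hc, norm_div, Complex.norm_real, norm_norm,
          show ‖starRingEnd ℂ (φ h)‖ = ‖φ h‖ from RCLike.norm_conj _,
          div_self (norm_ne_zero_iff.2 h0)]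
      have h2 := hφ (c • h)
      rw [map_smul, map_smul, norm_smul, hc1, one_mul, smul_eq_mul] at h2
      have h3 : c * φ h = ‖φ h‖ := by
        rw [hc, div_mul_eq_mul_div, mul_comm, Complex.mul_conj, Complex.normSq_eq_norm_sq]
        push_cast
        field_simp
      rw [h3, Complex.ofReal_re] at h2
      exact h2
  set E := LinearEquiv.ofInjective J hJ with hE
  have hE' : ∀ h, ((E h : LinearMap.range J) : Y) = J h := fun h => rfl
  let ψ : LinearMap.range J →L[ℂ] ℂ := (φ.comp E.symm.toLinearMap).mkContinuous 1 (by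
    intro y
    obtain ⟨h, rfl⟩ := E.surjective y
    simp only [LinearMap.comp_apply, LinearEquiv.coe_coe, LinearEquiv.symm_apply_apply, one_mul]
    exact hn h)
  obtain ⟨f, hf, hfn⟩ := exists_extension_norm_eq (LinearMap.range J) ψ
  have hval : ∀ h, f (J h) = φ h := by
    intro h
    have := hf (E h)
    rw [hE'] at this
    rw [this]
    show φ (E.symm (E h)) = φ h
    rw [LinearEquiv.symm_apply_apply]
  refine ⟨f, le_antisymm ?_ ?_, hval⟩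
  · rw [hfn]
    exact LinearMap.mkContinuous_norm_le _ zero_le_one _
  · have := f.le_opNorm (J v)
    rwa [hval, h1, norm_one, hv, mul_one] at this

lemma indep_aux (S : Y →L[ℂ] Y) (l : ℂ) (e g : Y) (he : S e = l • e) (hg : S g = l • g + e)
    (he0 : e ≠ 0) (c d : ℂ) (h : c • e + d • g = 0) : c = 0 ∧ d = 0 := by
  have h1 : S (c • e + d • g) - l • (c • e + d • g) = d • e := by
    rw [map_add, map_smul, map_smul, he, hg]
    module
  rw [h, map_zero, smul_zero, sub_zero] at h1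
  have hd : d = 0 := by
    rcases smul_eq_zero.1 h1.symm with h2 | h2
    · exact h2
    · exact absurd h2 he0
  refine ⟨?_, hd⟩
  rw [hd, zero_smul, add_zero] at h
  rcases smul_eq_zero.1 h with h2 | h2
  · exact h2
  · exact absurd h2 he0

lemma indep_four (S : Y →L[ℂ] Y) (l₁ l₂ : ℂ) (hl : l₁ ≠ l₂) (e₁ g₁ e₂ g₂ : Y)
    (he₁ : S e₁ = l₁ • e₁) (hg₁ : S g₁ = l₁ • g₁ + e₁) (he₁0 : e₁ ≠ 0)
    (he₂ : S e₂ = l₂ • e₂) (hg₂ : S g₂ = l₂ • g₂ + e₂)
    (a b c d : ℂ) (h : a • e₁ + b • g₁ + (c • e₂ + d • g₂) = 0) : a = 0 ∧ b = 0 := by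
  have k : l₁ - l₂ ≠ 0 := sub_ne_zero.2 hl
  have h1 : ∀ y : Y, S (S y - l₂ • y) - l₂ • (S y - l₂ • y) = S (S y) - (2 * l₂) • S y +
      (l₂ ^ 2) • y := by
    intro y
    rw [map_sub, map_smul]
    module
  have h2 := h1 (a • e₁ + b • g₁ + (c • e₂ + d • g₂))
  have h3 : S (S (a • e₁ + b • g₁ + (c • e₂ + d • g₂))) - (2 * l₂) •
      S (a • e₁ + b • g₁ + (c • e₂ + d • g₂)) + (l₂ ^ 2) • (a • e₁ + b • g₁ +
      (c • e₂ + d • g₂)) = (2 * (l₁ - l₂) * b + (l₁ - l₂) ^ 2 * a) • e₁ +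
      ((l₁ - l₂) ^ 2 * b) • g₁ := by
    simp only [map_add, map_smul, he₁, hg₁, he₂, hg₂]
    module
  rw [h] at h3
  simp only [map_zero, smul_zero, sub_zero, add_zero] at h3
  obtain ⟨x1, x2⟩ := indep_aux S l₁ e₁ g₁ he₁ hg₁ he₁0 _ _ h3.symm
  have hb : b = 0 := by
    rcases mul_eq_zero.1 x2 with h | h
    · exact absurd h (pow_ne_zero _ k)
    · exact h
  refine ⟨?_, hb⟩
  rw [hb, mul_zero, zero_add] at x1
  rcases mul_eq_zero.1 x1 with h | h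
  · exact absurd h (pow_ne_zero _ k)
  · exact h

/-- Two nontrivial Jordan blocks with independent eigenvalues give a dense numerical orbit. -/
theorem main (S : Y →L[ℂ] Y) (l₁ l₂ : ℂ) (h12 : ‖l₁‖ = ‖l₂‖) (h1 : 1 ≤ ‖l₁‖)
    (hi : ∀ a b : ℤ, (l₁ / ‖l₁‖) ^ a * (l₂ / ‖l₂‖) ^ b = 1 → a = 0 ∧ b = 0)
    (e₁ g₁ e₂ g₂ : Y) (he₁ : S e₁ = l₁ • e₁) (hg₁ : S g₁ = l₁ • g₁ + e₁) (he₁0 : e₁ ≠ 0)
    (he₂ : S e₂ = l₂ • e₂) (hg₂ : S g₂ = l₂ • g₂ + e₂) (he₂0 : e₂ ≠ 0) :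
    ∃ (x : Y) (f : Y →L[ℂ] ℂ), ‖x‖ = 1 ∧ ‖f‖ = 1 ∧ f x = 1 ∧
      Dense (Set.range fun n : ℕ => f ((S ^ n) x)) := by
  have hl : l₁ ≠ l₂ := by
    intro h
    have hz : l₁ / ‖l₁‖ ≠ 0 := by
      have h0 : (‖l₁‖ : ℂ) ≠ 0 := by
        have : ‖l₁‖ ≠ 0 := by linarith
        exact_mod_cast this
      refine div_ne_zero (fun h' => ?_) h0
      rw [h', norm_zero] at h1
      norm_num at h1
    have := hi 1 (-1) (by rw [← h, zpow_one, zpow_neg_one, mul_inv_cancel₀ hz])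
    exact absurd this.1 one_ne_zero
  set J : (Fin 4 → ℂ) →ₗ[ℂ] Y := Fintype.linearCombination ℂ ![e₁, g₁, e₂, g₂] with hJ
  have hJa : ∀ v, J v = v 0 • e₁ + v 1 • g₁ + (v 2 • e₂ + v 3 • g₂) := by
    intro v
    rw [hJ, Fintype.linearCombination_apply, Fin.sum_univ_four]
    simp only [Matrix.cons_val_zero, Matrix.cons_val_one, Matrix.cons_val]
    abel
  have hker : LinearMap.ker J = ⊥ := by
    rw [LinearMap.ker_eq_bot']
    intro v hv
    rw [hJa] at hv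
    obtain ⟨a0, a1⟩ := indep_four S l₁ l₂ hl e₁ g₁ e₂ g₂ he₁ hg₁ he₁0 he₂ hg₂ _ _ _ _ hv
    have hv' : v 2 • e₂ + v 3 • g₂ + (v 0 • e₁ + v 1 • g₁) = 0 := by rw [← hv]; abel
    obtain ⟨a2, a3⟩ := indep_four S l₂ l₁ hl.symm e₂ g₂ e₁ g₁ he₂ hg₂ he₂0 he₁ hg₁ _ _ _ _ hv'
    funext i
    fin_cases i
    · exact a0
    · exact a1
    · exact a2
    · exact a3
  obtain ⟨δ, hδ, H⟩ := var J hker
  have hl1 : 0 < ‖l₁‖ := by linarith
  obtain ⟨s, hs, hd⟩ := exists_dense l₁ l₂ h12 h1 hi (δ / ‖l₁‖) (by positivity)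
  have b1 : ‖l₁ * s‖ < δ := by
    rw [norm_mul, mul_comm]
    exact (lt_div_iff₀ hl1).1 hs
  have b2 : ‖l₂ * starRingEnd ℂ s‖ < δ := by
    rw [norm_mul, show ‖starRingEnd ℂ s‖ = ‖s‖ from RCLike.norm_conj _, ← h12, mul_comm]
    exact (lt_div_iff₀ hl1).1 hs
  obtain ⟨v, hv1, hv10, hv30, hv⟩ := H _ _ b1 b2
  have hself : Phi (l₁ * s) (l₂ * starRingEnd ℂ s) v v = 1 := by
    unfold Phi
    rw [div_self hv10, div_self hv30, sub_self, sub_self]
    norm_num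
  obtain ⟨f, hf1, hf⟩ := extend J (LinearMap.ker_eq_bot.1 hker)
    (PhiL (l₁ * s) (l₂ * starRingEnd ℂ s) v) hv v hv1 hself
  refine ⟨J v, f, hv1, hf1, by rw [hf, PhiL_apply, hself], ?_⟩
  have hpow : ∀ n : ℕ, (S ^ n) (J v) = J ![l₁ ^ n * v 0 + n * l₁ ^ (n - 1) * v 1, l₁ ^ n * v 1,
      l₂ ^ n * v 2 + n * l₂ ^ (n - 1) * v 3, l₂ ^ n * v 3] := by
    intro n
    induction n with
    | zero =>
      rw [pow_zero, one_apply_eq_self, hJa, hJa]
      simp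
    | succ n ih =>
      rw [pow_succ', mul_apply_eq_comp, ih, hJa, hJa]
      simp only [Matrix.cons_val_zero, Matrix.cons_val_one, Matrix.cons_val,
        map_add, map_smul, he₁, hg₁, he₂, hg₂, Nat.add_sub_cancel]
      have e : ∀ l : ℂ, (n : ℂ) * l ^ (n - 1) * l = n * l ^ n := by
        intro l
        rcases Nat.eq_zero_or_pos n with h0 | h0
        · subst h0; simp
        · obtain ⟨k, rfl⟩ : ∃ k, n = k + 1 := ⟨n - 1, by omega⟩
          simp only [Nat.add_sub_cancel]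
          rw [pow_succ]; ring
      have e1 : (l₁ ^ n * v 0 + n * l₁ ^ (n - 1) * v 1) * l₁ + l₁ ^ n * v 1 =
          l₁ ^ (n + 1) * v 0 + ((n + 1 : ℕ) : ℂ) * l₁ ^ n * v 1 := by
        have := e l₁
        push_cast
        linear_combination (v 1) * this
      have e2 : (l₂ ^ n * v 2 + n * l₂ ^ (n - 1) * v 3) * l₂ + l₂ ^ n * v 3 =
          l₂ ^ (n + 1) * v 2 + ((n + 1 : ℕ) : ℂ) * l₂ ^ n * v 3 := by
        have := e l₂
        push_cast
        linear_combination (v 3) * this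
      rw [← e1, ← e2]
      module
  have hval : (fun n : ℕ => f ((S ^ n) (J v))) = fun n : ℕ => val l₁ l₂ n s := by
    funext n
    rw [hpow, hf, PhiL_apply]
    unfold Phi val
    simp only [Matrix.cons_val_zero, Matrix.cons_val_one, Matrix.cons_val]
    have e : ∀ l : ℂ, (n : ℂ) * l ^ (n - 1) * l = n * l ^ n := by
      intro l
      rcases Nat.eq_zero_or_pos n with h0 | h0
      · subst h0; simp
      · obtain ⟨k, rfl⟩ : ∃ k, n = k + 1 := ⟨n - 1, by omega⟩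
        simp only [Nat.add_sub_cancel]
        rw [pow_succ]; ring
    have q1 : ((l₁ ^ n * v 0 + n * l₁ ^ (n - 1) * v 1) * v 1 - v 0 * (l₁ ^ n * v 1)) / v 1 ^ 2 =
        n * l₁ ^ (n - 1) := by
      field_simp
      ring
    have q2 : ((l₂ ^ n * v 2 + n * l₂ ^ (n - 1) * v 3) * v 3 - v 2 * (l₂ ^ n * v 3)) / v 3 ^ 2 =
        n * l₂ ^ (n - 1) := by
      field_simp
      ring
    rw [q1, q2, mul_div_cancel_right₀ _ hv10, mul_div_cancel_right₀ _ hv30]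
    linear_combination s * e l₁ + starRingEnd ℂ s * e l₂
  rw [hval]
  exact hd

end Pool.Agent.Q81.NH
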